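import Pool.Agent.H58.FL.Targets

/-!
# Row DST: the map to projective space has small oscillation on cells (helper63)
-/

set_option autoImplicit false

open Topology

namespace Pool.Agent.H63.FL

open Pool.Agent.H58.FL Pool.Agent.H59 Pool.Agent.H48.FR

attribute [local irreducible] at2 mu pr

/-- the map of the unit cube -/
noncomputable def Gq (n : ℕ) (y : Fin (2 * n) → ℝ) : CPn n :=
  Pool.Agent.H58.FL.mk (mu n fun l => at2 (y (pr l 0)) (y (pr l 1))) (mu_ne fun _ => at2_ne _ _)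

/-- the pairs -/
noncomputable def Gp (n : ℕ) (y : Fin (2 * n) → ℝ) : Fin n → Fin 2 → ℂ :=
  fun l => at2 (y (pr l 0)) (y (pr l 1))

theorem Gp_cont (hMUL : T_MUL) (n : ℕ) : Continuous (Gp n) := by
  refine continuous_pi fun l => ?_
  have h1 : Continuous fun y : Fin (2 * n) → ℝ => (y (pr l 0), y (pr l 1)) :=
    (continuous_apply (pr l 0)).prodMk (continuous_apply (pr l 1))
  obtain ⟨-, -, -, h2⟩ := hMUL n
  have h3 : Continuous fun y : Fin (2 * n) → ℝ => at2 (y (pr l 0)) (y (pr l 1)) :=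
    Continuous.comp h2 h1
  exact h3

theorem Gq_cont (hMUL : T_MUL) (hCMK : T_CMK) (n : ℕ) : Continuous (Gq n) := by
  obtain ⟨-, -, h1, -⟩ := hMUL n
  have h2 : Continuous fun y : Fin (2 * n) → ℝ => mu n (Gp n y) :=
    Continuous.comp h1 (Gp_cont hMUL n)
  exact hCMK (Fin (2 * n) → ℝ) n (fun y => mu n (Gp n y))
    (fun _ => mu_ne fun _ => at2_ne _ _) h2

theorem gm_eq (n N : ℕ) (y : Fin (2 * n) → ℝ) : gm n N y = Gq n fun i => y i / N := rfl

theorem pf_DST (hMUL : T_MUL) (hCMK : T_CMK) : T_DST := by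
  intro n δ hδ
  have hc : UniformContinuousOn (Gq n) (Set.Icc 0 1) :=
    isCompact_Icc.uniformContinuousOn_of_continuous (Gq_cont hMUL hCMK n).continuousOn
  obtain ⟨η, hη, h⟩ := Metric.uniformContinuousOn_iff.mp hc δ hδ
  obtain ⟨N₀, hN₀⟩ := exists_nat_gt (1 / η)
  refine ⟨N₀ + 1, fun N hN x y hy y' hy' => ?_⟩
  have hNp : (0 : ℝ) < N := by
    have : 0 < N := by omega
    exact_mod_cast this
  have hNN : (N₀ : ℝ) ≤ N := by
    have : N₀ ≤ N := by omega
    exact_mod_cast this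
  have h1 : 1 / (N : ℝ) < η := by
    rw [div_lt_iff₀ hNp]
    rw [div_lt_iff₀ hη] at hN₀
    nlinarith
  have hmem : ∀ z ∈ cell x, (fun i => z i / (N : ℝ)) ∈ Set.Icc (0 : Fin (2 * n) → ℝ) 1 := by
    intro z hz
    constructor
    · intro i
      have h2 : (0 : ℝ) ≤ ((x i : ℕ) : ℝ) := Nat.cast_nonneg _
      exact div_nonneg (h2.trans (hz i).1) hNp.le
    · intro i
      show z i / (N : ℝ) ≤ 1
      rw [div_le_one hNp]
      have h2 : ((x i : ℕ) : ℝ) + 1 ≤ N := by
        have := (x i).isLt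
        exact_mod_cast this
      exact (hz i).2.trans h2
  rw [gm_eq, gm_eq]
  refine h _ (hmem y hy) _ (hmem y' hy') (lt_of_le_of_lt ?_ h1)
  rw [dist_pi_le_iff (by positivity)]
  intro i
  rw [Real.dist_eq, ← sub_div, abs_div, abs_of_pos hNp]
  refine div_le_div_of_nonneg_right ?_ hNp.le
  rw [abs_le]
  have h2 := hy i
  have h3 := hy' i
  constructor <;> linarith [h2.1, h2.2, h3.1, h3.2]

end Pool.Agent.H63.FL
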