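import Pool.Agent.H58.FL.Targets

/-!
# Row PER: the maps from the cube are periodic, symmetric, compatible (helper63)
-/

set_option autoImplicit false

open Topology

namespace Pool.Agent.H63.FL

open Pool.Agent.H58.FL Pool.Agent.H59 Pool.Agent.H48.FR

theorem at2_one (t : ℝ) : at2 1 t = at2 0 t := by
  have h1 : Complex.exp (2 * Real.pi * ((1 : ℝ) : ℂ) * Complex.I) = 1 := by
    rw [Complex.ofReal_one, mul_one]
    exact Complex.exp_two_pi_mul_I
  have h0 : Complex.exp (2 * Real.pi * ((0 : ℝ) : ℂ) * Complex.I) = 1 := by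
    rw [Complex.ofReal_zero, mul_zero, zero_mul, Complex.exp_zero]
  unfold at2
  rw [h1, h0]

theorem at2_top (s : ℝ) : at2 s 1 = (-Complex.exp (2 * Real.pi * s * Complex.I)) • at2 s 0 := by
  unfold at2
  funext i
  fin_cases i
  · simp
  · simp

theorem pr_ne {n : ℕ} (l : Fin n) : pr l 0 ≠ pr l 1 := by
  intro h
  unfold pr at h
  have := finProdFinEquiv.injective h
  simp at this

theorem pp_pr {n : ℕ} (ρ : Equiv.Perm (Fin n)) (l : Fin n) (e : Fin 2) :
    pp ρ (pr l e) = pr (ρ l) e := by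
  unfold pp pr
  simp

theorem upd_aN {n N : ℕ} (hN : 1 ≤ N) (y : Fin (2 * n) → ℝ) (i : Fin (2 * n)) (hi : y i = 0)
    (l : Fin n) : ∃ c : ℂ, c ≠ 0 ∧ aN N (Function.update y i N) l = c • aN N y l := by
  have hN0 : (N : ℝ) ≠ 0 := by
    have : 0 < N := hN
    exact_mod_cast this.ne'
  by_cases h0 : pr l 0 = i
  · refine ⟨1, one_ne_zero, ?_⟩
    have h1 : pr l 1 ≠ i := fun h => pr_ne l (h0.trans h.symm)
    unfold aN
    rw [h0, Function.update_self, Function.update_of_ne h1, hi, div_self hN0, zero_div, at2_one,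
      one_smul]
  · by_cases h1 : pr l 1 = i
    · refine ⟨-Complex.exp (2 * Real.pi * ((y (pr l 0) / N : ℝ) : ℂ) * Complex.I),
        neg_ne_zero.mpr (Complex.exp_ne_zero _), ?_⟩
      unfold aN
      rw [h1, Function.update_self, Function.update_of_ne h0, hi, div_self hN0, zero_div, at2_top]
    · refine ⟨1, one_ne_zero, ?_⟩
      unfold aN
      rw [Function.update_of_ne h0, Function.update_of_ne h1, one_smul]

theorem mk_eq {n : ℕ} {x y : Fin (n + 1) → ℂ} (hx : x ≠ 0) (hy : y ≠ 0) {a : ℂ} (ha : a ≠ 0)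
    (h : x = a • y) : Pool.Agent.H58.FL.mk x hx = Pool.Agent.H58.FL.mk y hy :=
  (PP.mk_eq_iff hx hy).mpr ⟨a, ha, h.symm⟩

theorem pf_PER (hMUL : T_MUL) : T_PER := by
  intro n N hN
  refine ⟨?_, ?_, ?_, ?_, ?_, ?_⟩
  · intro y _ i hi
    funext l
    obtain ⟨c, hc, h⟩ := upd_aN hN y i hi l
    exact mk_eq _ _ hc h
  · intro y _ i hi
    choose c hc h using upd_aN hN y i hi
    have h1 : aN N (Function.update y i N) = fun l => c l • aN N y l := funext h
    refine mk_eq _ _ (a := ∏ l, c l) (Finset.prod_ne_zero_iff.mpr fun l _ => hc l) ?_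
    rw [h1]
    exact (hMUL n).1 _ _
  · intro ρ y
    have h1 : aN N (fun i => y (pp ρ i)) = fun l => aN N y (ρ l) := by
      funext l
      unfold aN
      show at2 (y (pp ρ (pr l 0)) / N) (y (pp ρ (pr l 1)) / N) = _
      rw [pp_pr, pp_pr]
    refine mk_eq _ _ (a := 1) one_ne_zero ?_
    rw [h1, one_smul]
    exact (hMUL n).2.1 _ _
  · intro y
    have h1 : ∀ l, ∃ a : ℂ, a ≠ 0 ∧ PP.rep (gY N y l) = a • aN N y l := fun l =>
      PP.exists_rep (aN N y l) (at2_ne _ _)
    choose c hc h using h1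
    have h2 : (fun l => PP.rep (gY N y l)) = fun l => c l • aN N y l := funext h
    refine mk_eq _ _ (a := ∏ l, c l) (Finset.prod_ne_zero_iff.mpr fun l _ => hc l) ?_
    rw [h2]
    exact (hMUL n).1 _ _
  · intro s
    have hN0 : (N : ℝ) ≠ 0 := by
      have : 0 < N := hN
      exact_mod_cast this.ne'
    refine mk_eq _ _ (a := 1) one_ne_zero ?_
    rw [div_self hN0, zero_div, at2_one, one_smul]
  · intro y l
    rfl

end Pool.Agent.H63.FL
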