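import Pool.Agent.H58.FL.TargetsD

/-!
# Row P5A: one edge of a wheel with five spokes, first part (helper63)
-/

set_option autoImplicit false

namespace Pool.Agent.H63.FL

open Pool.Agent.H58.FL Pool.Agent.H59 Pool.Agent.H48.FR Set

/-- the tangent line of the cosine -/
private theorem tang (x0 x : ℝ) (h0 : -(Real.pi / 2) ≤ x0) (h0' : x0 ≤ Real.pi / 2)
    (h : -(Real.pi / 2) ≤ x) (h' : x ≤ Real.pi / 2) :
    Real.cos x ≤ Real.cos x0 - Real.sin x0 * (x - x0) := by
  rcases lt_trichotomy x x0 with hx | hx | hx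
  · obtain ⟨ξ, hξ, he⟩ := exists_hasDerivAt_eq_slope Real.cos (fun y => -Real.sin y) hx
      Real.continuous_cos.continuousOn (fun y _ => Real.hasDerivAt_cos y)
    have h1 : Real.sin ξ ≤ Real.sin x0 := Real.sin_le_sin_of_le_of_le_pi_div_two
      (by linarith [hξ.1]) h0' hξ.2.le
    have h2 : 0 < x0 - x := by linarith
    rw [eq_div_iff h2.ne'] at he
    nlinarith [mul_le_mul_of_nonneg_right h1 h2.le]
  · rw [hx]; simp
  · obtain ⟨ξ, hξ, he⟩ := exists_hasDerivAt_eq_slope Real.cos (fun y => -Real.sin y) hx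
      Real.continuous_cos.continuousOn (fun y _ => Real.hasDerivAt_cos y)
    have h1 : Real.sin x0 ≤ Real.sin ξ := Real.sin_le_sin_of_le_of_le_pi_div_two
      h0 (by linarith [hξ.2]) hξ.1.le
    have h2 : 0 < x - x0 := by linarith
    rw [eq_div_iff h2.ne'] at he
    nlinarith [mul_le_mul_of_nonneg_right h1 h2.le]

private theorem cos_lin (x : ℝ) (h : x ≤ Real.pi / 2) : Real.cos x ≤ Real.pi / 2 - x := by
  rw [← Real.sin_pi_div_two_sub]
  exact Real.sin_le (by linarith)

private theorem sin36 (hg : Real.cos (Real.pi / 5) = gr / 2) (g2 : gr < 16181 / 10000)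
    (g0 : 0 < gr) : 5877 / 10000 ≤ Real.sin (Real.pi / 5) := by
  have hp := Real.pi_pos
  have h1 := Real.sin_sq_add_cos_sq (Real.pi / 5)
  have h2 : 0 ≤ Real.sin (Real.pi / 5) :=
    Real.sin_nonneg_of_nonneg_of_le_pi (by positivity) (by linarith)
  rw [hg] at h1
  by_contra hc
  rw [not_le] at hc
  nlinarith

/-- the case `T = 1` -/
private theorem one (hg : Real.cos (Real.pi / 5) = gr / 2) (g1 : 1618 / 1000 < gr)
    (g2 : gr < 16181 / 10000) (φ : ℝ) (h0 : 0 ≤ φ) (h1 : φ ≤ Real.pi / 2)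
    (h2 : Real.pi / 5 + (gr - 1) * (3 * Real.pi / 5 - φ) ≤ Real.pi / 2) :
    Real.cos φ + Real.cos (Real.pi / 5 + (gr - 1) * (3 * Real.pi / 5 - φ)) ≤ 1 := by
  have hp := Real.pi_pos
  have hp4 := Real.pi_lt_d4
  have hp3 := Real.pi_gt_d4
  have h3 := cos_lin _ h2
  rcases le_total φ (Real.pi / 3) with h4 | h4
  · have h5 := tang (Real.pi / 5) φ (by linarith) (by linarith) (by linarith) h1
    have h6 := sin36 hg g2 (by linarith)
    have h7 : Real.sin (Real.pi / 5) ≤ gr - 1 := by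
      have h8 := Real.sin_sq_add_cos_sq (Real.pi / 5)
      rw [hg] at h8
      have h9 : 0 ≤ Real.sin (Real.pi / 5) := by linarith
      nlinarith
    rw [hg] at h5
    have h8 : (gr - 1 - Real.sin (Real.pi / 5)) * (φ - Real.pi / 5) ≤
        (gr - 1 - Real.sin (Real.pi / 5)) * (2 * Real.pi / 15) :=
      mul_le_mul_of_nonneg_left (by linarith) (by linarith)
    have h9 : (gr - 1 - Real.sin (Real.pi / 5)) * (2 * Real.pi / 15) ≤
        (304 / 10000) * (2 * Real.pi / 15) :=
      mul_le_mul_of_nonneg_right (by linarith) (by positivity)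
    nlinarith [mul_pos hp (by linarith : (0 : ℝ) < gr - 1618 / 1000)]
  · have h5 := tang (Real.pi / 3) φ (by linarith) (by linarith) (by linarith) h1
    rw [Real.cos_pi_div_three, Real.sin_pi_div_three] at h5
    have h6 : (17 : ℝ) / 10 ≤ Real.sqrt 3 := by
      rw [show (17 : ℝ) / 10 = Real.sqrt ((17 / 10) ^ 2) by rw [Real.sqrt_sq (by norm_num)]]
      exact Real.sqrt_le_sqrt (by norm_num)
    have h7 : 0 ≤ (Real.sqrt 3 / 2 - (gr - 1)) * (φ - Real.pi / 3) :=
      mul_nonneg (by linarith) (by linarith)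
    nlinarith [mul_pos hp (by linarith : (0 : ℝ) < gr - 1618 / 1000)]

/-- the case `T = gr ^ 2` -/
private theorem two (hq : gr ^ 2 = gr + 1) (hg : Real.cos (Real.pi / 5) = gr / 2)
    (hg3 : Real.cos (3 * Real.pi / 5) = -(gr - 1) / 2) (g1 : 1618 / 1000 < gr)
    (g2 : gr < 16181 / 10000) (s : ℝ) (h1 : -(3 * Real.pi / 10 * gr) ≤ s) (h2 : s ≤ Real.pi / 5) :
    Real.cos (3 * Real.pi / 5 + s) + gr ^ 2 * Real.cos (Real.pi / 5 - (gr - 1) * s) ≤
      1 / 2 * (1 + gr ^ 2) := by
  have hp := Real.pi_pos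
  have hc : (gr - 1) * gr = 1 := by nlinarith
  set I : Set ℝ := Icc (-(3 * Real.pi / 10 * gr)) (Real.pi / 5) with hI
  set F : ℝ → ℝ := fun s =>
    Real.cos (3 * Real.pi / 5 + s) + gr ^ 2 * Real.cos (Real.pi / 5 - (gr - 1) * s) with hF
  set F' : ℝ → ℝ := fun s =>
    -Real.sin (3 * Real.pi / 5 + s) + gr * Real.sin (Real.pi / 5 - (gr - 1) * s) with hF'
  have dF : ∀ s, HasDerivAt F (F' s) s := by
    intro s
    have e1 : HasDerivAt (fun s : ℝ => 3 * Real.pi / 5 + s) 1 s := by
      simpa using (hasDerivAt_id s).const_add (3 * Real.pi / 5)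
    have e2 : HasDerivAt (fun s : ℝ => Real.pi / 5 - (gr - 1) * s) (-(gr - 1)) s := by
      simpa using ((hasDerivAt_id s).const_mul (gr - 1)).const_sub (Real.pi / 5)
    have e3 := e1.cos.add (e2.cos.const_mul (gr ^ 2))
    refine e3.congr_deriv ?_
    simp only [hF']
    have : gr ^ 2 * (gr - 1) = gr := by nlinarith
    linear_combination Real.sin (Real.pi / 5 - (gr - 1) * s) * this
  have dF' : ∀ s, HasDerivAt F' (-(Real.cos (3 * Real.pi / 5 + s) +
      Real.cos (Real.pi / 5 - (gr - 1) * s))) s := by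
    intro s
    have e1 : HasDerivAt (fun s : ℝ => 3 * Real.pi / 5 + s) 1 s := by
      simpa using (hasDerivAt_id s).const_add (3 * Real.pi / 5)
    have e2 : HasDerivAt (fun s : ℝ => Real.pi / 5 - (gr - 1) * s) (-(gr - 1)) s := by
      simpa using ((hasDerivAt_id s).const_mul (gr - 1)).const_sub (Real.pi / 5)
    have e3 := e1.sin.neg.add (e2.sin.const_mul gr)
    refine e3.congr_deriv ?_
    linear_combination (-Real.cos (Real.pi / 5 - (gr - 1) * s)) * hc
  have hpos : ∀ s ∈ I, 0 ≤ Real.cos (3 * Real.pi / 5 + s) +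
      Real.cos (Real.pi / 5 - (gr - 1) * s) := by
    intro s hs
    obtain ⟨s1, s2⟩ := hs
    have s3 : -(Real.pi / 2) ≤ s := by nlinarith
    rw [Real.cos_add_cos]
    refine mul_nonneg (mul_nonneg (by norm_num) (Real.cos_nonneg_of_mem_Icc ⟨?_, ?_⟩))
      (Real.cos_nonneg_of_mem_Icc ⟨?_, ?_⟩)
    · nlinarith
    · nlinarith
    · nlinarith
    · nlinarith
  have hanti : AntitoneOn F' I := by
    refine antitoneOn_of_deriv_nonpos (convex_Icc _ _)
      (fun x _ => (dF' x).continuousAt.continuousWithinAt)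
      (fun x _ => (dF' x).differentiableAt.differentiableWithinAt) (fun x hx => ?_)
    rw [(dF' x).deriv]
    exact neg_nonpos.mpr (hpos x (interior_subset hx))
  have h0I : (0 : ℝ) ∈ I := ⟨by nlinarith, by positivity⟩
  have hF0' : F' 0 = 0 := by
    simp only [hF', add_zero, mul_zero, sub_zero]
    have e1 : Real.sin (3 * Real.pi / 5) = Real.sin (2 * (Real.pi / 5)) := by
      rw [← Real.sin_pi_sub]
      ring_nf
    rw [e1, Real.sin_two_mul, hg]
    ring
  have hF0 : F 0 = 1 / 2 * (1 + gr ^ 2) := by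
    simp only [hF, add_zero, mul_zero, sub_zero]
    rw [hg, hg3]
    nlinarith
  have hcont : ∀ J : Set ℝ, ContinuousOn F J := fun J x _ =>
    (dF x).continuousAt.continuousWithinAt
  have hsI : s ∈ I := ⟨h1, h2⟩
  change F s ≤ _
  rw [← hF0]
  rcases le_total s 0 with h3 | h3
  · have hm : MonotoneOn F (Icc s 0) := by
      refine monotoneOn_of_deriv_nonneg (convex_Icc _ _) (hcont _)
        (fun x _ => (dF x).differentiableAt.differentiableWithinAt) (fun x hx => ?_)
      rw [(dF x).deriv]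
      have hx' := interior_subset hx
      have hxI : x ∈ I := ⟨h1.trans hx'.1, hx'.2.trans h0I.2⟩
      have := hanti hxI h0I hx'.2
      rwa [hF0'] at this
    exact hm ⟨le_rfl, h3⟩ ⟨h3, le_rfl⟩ h3
  · have hm : AntitoneOn F (Icc 0 s) := by
      refine antitoneOn_of_deriv_nonpos (convex_Icc _ _) (hcont _)
        (fun x _ => (dF x).differentiableAt.differentiableWithinAt) (fun x hx => ?_)
      rw [(dF x).deriv]
      have hx' := interior_subset hx
      have hxI : x ∈ I := ⟨h0I.1.trans hx'.1, hx'.2.trans h2⟩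
      have := hanti h0I hxI hx'.1
      rwa [hF0'] at this
    exact hm ⟨le_rfl, h3⟩ ⟨h3, le_rfl⟩ h3

theorem pf_P5A (hNU3 : T_NU3) : T_P5A := by
  obtain ⟨⟨hq, g1, g2⟩, -, ⟨hg, hg3⟩, -, -, -, -⟩ := hNU3
  intro T φ γ hT1 hT2 hφ hγ hγ' hlt
  have hp := Real.pi_pos
  by_contra hge
  rw [not_lt] at hge
  obtain ⟨hφ1, hφ2⟩ := abs_le.mp hφ
  set al : ℝ := Real.pi / 5 + (gr - 1) * (3 * Real.pi / 5 - φ) with hal
  have hal0 : 0 ≤ al := by rw [hal]; nlinarith
  have hcos : Real.cos γ ≤ Real.cos al := Real.cos_le_cos_of_nonneg_of_le_pi hal0 hγ' hge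
  have hT0 : 0 < T := by linarith
  have h1 : Real.cos φ + T * Real.cos γ ≤ Real.cos φ + T * Real.cos al := by
    have := mul_le_mul_of_nonneg_left hcos hT0.le
    linarith
  rcases le_total (Real.pi / 2) al with h2 | h2
  · have h3 : Real.cos al ≤ 0 := Real.cos_nonpos_of_pi_div_two_le_of_le h2 (by linarith)
    have h4 := Real.cos_le_one φ
    nlinarith [mul_nonneg hT0.le (neg_nonneg.mpr h3)]
  · -- both ends of the interval of `T`
    have hφ0 : 0 ≤ φ := by rw [hal] at h2; nlinarith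
    have e1 : Real.cos φ + Real.cos al ≤ 1 := by
      rcases le_total φ (Real.pi / 2) with h5 | h5
      · exact one hg g1 g2 φ hφ0 h5 h2
      · have h6 : Real.cos φ ≤ 0 := Real.cos_nonpos_of_pi_div_two_le_of_le h5 (by linarith)
        linarith [Real.cos_le_one al]
    have e2 : Real.cos φ + gr ^ 2 * Real.cos al ≤ 1 / 2 * (1 + gr ^ 2) := by
      have h7 := two hq hg hg3 g1 g2 (φ - 3 * Real.pi / 5) (by
        have hc : (gr - 1) * gr = 1 := by nlinarith
        rw [hal] at h2
        have h8 : (gr - 1) * (3 * Real.pi / 5 - φ) * gr ≤ 3 * Real.pi / 10 * gr :=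
          mul_le_mul_of_nonneg_right (by linarith) (by linarith)
        nlinarith) (by linarith)
      have h9 : 3 * Real.pi / 5 + (φ - 3 * Real.pi / 5) = φ := by ring
      have h10 : Real.pi / 5 - (gr - 1) * (φ - 3 * Real.pi / 5) = al := by rw [hal]; ring
      rwa [h9, h10] at h7
    have hgr : 1 < gr ^ 2 := by nlinarith
    have h11 : 0 ≤ (gr ^ 2 - T) * (1 - (Real.cos φ + Real.cos al)) :=
      mul_nonneg (by linarith) (by linarith)
    have h12 : 0 ≤ (T - 1) * (1 / 2 * (1 + gr ^ 2) - (Real.cos φ + gr ^ 2 * Real.cos al)) :=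
      mul_nonneg (by linarith) (by linarith)
    have h13 : (gr ^ 2 - 1) * (Real.cos φ + T * Real.cos al) ≤ (gr ^ 2 - 1) * (1 / 2 * (1 + T)) := by
      nlinarith
    have h14 := le_of_mul_le_mul_left h13 (by linarith)
    linarith

end Pool.Agent.H63.FL
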